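import Pool.Agent.MWHP.StmtsN
import Pool.Agent.MVO.Basic

/-!
# Squad MWHP (MP_23468a_al), row ALA: align all letters
-/

set_option autoImplicit false

namespace Pool.Agent.MWHP.H64

open Pool.Agent.Helper14_MV Pool.Agent.Helper2_MV Pool.Agent.MVO Pool.Agent.MWL Pool.Agent.MWS
open Pool.Agent.MWA Pool.Agent.MWH

theorem step (alg : AlgStmt) (n : ℕ) (β θ : FIC) (hβ : BasN n β) (hle : β ≤ θ) (k : ℕ)
    (C C' : ℕ → List ℕ) (hC : OkB k C) (hSh : ∀ x, NS k x → Sh k (ty C x) (ty C' x))
    (hL1 : ∀ x, NS k x → L1 θ k (ty C x) (ty C' x)) (L : List ℕ) :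
    (∀ x ∈ L, NS k x) → ∃ C2 : ℕ → List ℕ, OkB k C2 ∧ MWS.Sub k C C2 ∧
      RR θ (asm k C) (asm k C2) ∧ (∀ x ∈ L, Eq2 n k (ty C2 x) (ty C' x)) ∧
        ∀ j ≤ k, ∀ c, c ∉ L → (C2 j).count c = (C j).count c := by
  induction L with
  | nil =>
    intro _
    exact ⟨C, hC, fun c hc => hc, RR.refl _, fun x hx => absurd hx List.not_mem_nil,
      fun j _ c _ => rfl⟩
  | cons x L ih =>
    intro hns
    obtain ⟨C2, ok2, sub2, rr2, eq2, ct2⟩ := ih (fun y hy => hns y (List.mem_cons_of_mem _ hy))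
    by_cases hx : x ∈ L
    · refine ⟨C2, ok2, sub2, rr2, fun y hy => ?_, fun j hj c hc => ct2 j hj c ?_⟩
      · rcases List.mem_cons.1 hy with rfl | hy
        · exact eq2 _ hx
        · exact eq2 _ hy
      · exact fun h => hc (List.mem_cons_of_mem _ h)
    · have hnx : NS k x := hns x List.mem_cons_self
      have e1 : ∀ j ≤ k, ty C x j = ty C2 x j := fun j hj => (ct2 j hj x hx).symm
      have hS : Sh k (ty C2 x) (ty C' x) := by
        intro j hj
        rw [← e1 j hj]
        exact hSh x hnx j hj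
      have hL : L1 θ k (ty C2 x) (ty C' x) := by
        have e2 : mw k (ty C2 x) = mw k (ty C x) := by
          unfold mw
          exact asm_congr fun j hj => by rw [e1 j hj]
        unfold L1
        rw [e2]
        exact hL1 x hnx
      obtain ⟨C3, ok3, sub3, rr3, ct3, eq3⟩ := alg n β θ hβ hle k C2 ok2 x (ty C' x) hnx hS hL
      refine ⟨C3, ok3, fun c hc => sub2 c (sub3 c hc), θ.trans rr2 rr3, fun y hy => ?_,
        fun j hj c hc => ?_⟩
      · by_cases hyx : y = x
        · rw [hyx]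
          exact eq3
        · have hyL : y ∈ L := (List.mem_cons.1 hy).resolve_left hyx
          intro j hj
          have e3 : ty C3 y j = ty C2 y j := ct3 j hj y hyx
          rw [e3]
          exact eq2 y hyL j hj
      · have h1 : c ≠ x := fun h => hc (h ▸ List.mem_cons_self)
        have h2 : c ∉ L := fun h => hc (List.mem_cons_of_mem _ h)
        rw [ct3 j hj c h1, ct2 j hj c h2]

/-- **ALA** -/
theorem ala (alg : AlgStmt) : AlaStmt := by
  intro n β θ hβ hle k C C' hC hC' hSh hL1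
  have hmem : ∀ x, x ∈ (List.range (k + 1)).flatMap C ↔ ∃ j ≤ k, x ∈ C j := by
    intro x
    rw [List.mem_flatMap]
    constructor
    · rintro ⟨j, hj, hx⟩
      exact ⟨j, by have := List.mem_range.1 hj; omega, hx⟩
    · rintro ⟨j, hj, hx⟩
      exact ⟨j, List.mem_range.2 (by omega), hx⟩
  obtain ⟨C2, ok2, sub2, rr2, eq2, ct2⟩ := step alg n β θ hβ hle k C C' hC hSh hL1
    ((List.range (k + 1)).flatMap C) (fun x hx => by
      obtain ⟨j, hj, hx'⟩ := (hmem x).1 hx
      exact hC.ok j hj x hx')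
  refine ⟨C2, ok2, sub2, ?_, rr2⟩
  intro c hc
  by_cases hcL : c ∈ (List.range (k + 1)).flatMap C
  · exact eq2 c hcL
  · intro j hj
    left
    have h0 : c ∉ C j := fun h => hcL ((hmem c).2 ⟨j, hj, h⟩)
    have h1 : (C j).count c = 0 := List.count_eq_zero.2 h0
    have h2 : ty C2 c j = 0 := by
      change (C2 j).count c = 0
      rw [ct2 j hj c hcL, h1]
    have h3 : ty C c j = 0 := h1
    rcases hSh c hc j hj with h | h
    · rw [h2, ← h, h3]
    · omega

end Pool.Agent.MWHP.H64
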